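import Pool.Agent.Q131.IrrDist

/-!
# A dense sequence in the plane without a dense subsequence with all distances irrational

We construct a countable dense set `S` in the plane together with pairwise disjoint discs `D_p`
(`p ∈ S`, `p ∉ D_p`) such that every point of `S` in `D_p` is at rational distance from `p`.  A dense
subsequence contains some `p ∈ S` and also a point of `S` in `D_p`.
-/

namespace Pool.Agent.Results.MP_9c82d2_co.NoIrrationalSubsequence

/-- There is a sequence of pairwise distinct points, dense in the Euclidean plane, such that every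
dense subsequence has two terms (with different indices, hence distinct points) whose distance is
rational. -/
theorem result :
    ∃ x : ℕ → EuclideanSpace ℝ (Fin 2), Function.Injective x ∧ DenseRange x ∧
      ∀ φ : ℕ → ℕ, StrictMono φ → DenseRange (x ∘ φ) →
        ∃ k l, k ≠ l ∧ x (φ k) ≠ x (φ l) ∧ ¬ Irrational (dist (x (φ k)) (x (φ l))) := by
  obtain ⟨x, hinj, hd, h⟩ := Q131.IrrDist.main
  refine ⟨x, hinj, hd, fun φ hφ hdφ => ?_⟩
  obtain ⟨k, l, hkl, q, hq⟩ := h φ hφ hdφ
  refine ⟨k, l, fun he => hkl (by rw [he]), hkl, ?_⟩
  rw [hq]
  exact Rat.not_irrational q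

end Pool.Agent.Results.MP_9c82d2_co.NoIrrationalSubsequence
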